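import Mathlib

set_option autoImplicit false

open Finset

namespace Pool.Agent.Results.MP_e08634_nt.CubicBound

/-- the product of the first `k` primes -/
noncomputable def P (k : ℕ) : ℕ := ∏ i ∈ range k, Nat.nth Nat.Prime i

/-- the least integer `m > 1` dividing none of the sums `P i + P j`, `1 ≤ i < j ≤ n` -/
noncomputable def a (n : ℕ) : ℕ :=
  sInf {m : ℕ | 1 < m ∧ ∀ i j, 1 ≤ i → i < j → j ≤ n → ¬ m ∣ P i + P j}

theorem pr (k : ℕ) : (Nat.nth Nat.Prime k).Prime := Nat.prime_nth_prime k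

theorem mono {i j : ℕ} (h : i < j) : Nat.nth Nat.Prime i < Nat.nth Nat.Prime j :=
  Nat.nth_strictMono Nat.infinite_setOfPred_prime h

theorem P_split {i j : ℕ} (h : i ≤ j) : P j = P i * ∏ l ∈ Ico i j, Nat.nth Nat.Prime l := by
  unfold P
  rw [Finset.prod_range_mul_prod_Ico _ h]

theorem dvd_N {i j k n : ℕ} (hij : i < j) (hjn : j ≤ n) (hk : n ≤ k)
    (h : Nat.nth Nat.Prime k ∣ P i + P j) :
    Nat.nth Nat.Prime k ∣ 1 + ∏ l ∈ Ico i j, Nat.nth Nat.Prime l := by
  rw [P_split hij.le, show P i + P i * ∏ l ∈ Ico i j, Nat.nth Nat.Prime l =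
    P i * (1 + ∏ l ∈ Ico i j, Nat.nth Nat.Prime l) by ring] at h
  rcases (pr k).dvd_mul.1 h with h | h
  · exfalso
    obtain ⟨l, hl, hd⟩ := ((pr k).prime.dvd_finsetProd_iff _).1 h
    have h1 := (Nat.prime_dvd_prime_iff_eq (pr k) (pr l)).1 hd
    have h2 := mono (show l < k by have := Finset.mem_range.1 hl; omega)
    omega
  · exact h

theorem count {i j n C : ℕ} (hij : i < j) (hjn : j ≤ n) :
    ((Icc n (n + C)).filter (fun k => Nat.nth Nat.Prime k ∣
      1 + ∏ l ∈ Ico i j, Nat.nth Nat.Prime l)).card ≤ j - i := by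
  classical
  by_contra hcon
  push Not at hcon
  set S := (Icc n (n + C)).filter (fun k => Nat.nth Nat.Prime k ∣
      1 + ∏ l ∈ Ico i j, Nat.nth Nat.Prime l) with hS
  set B := Nat.nth Nat.Prime (n - 1) with hB
  have hprod : ∏ k ∈ S, Nat.nth Nat.Prime k ∣ 1 + ∏ l ∈ Ico i j, Nat.nth Nat.Prime l := by
    have himg : ∏ p ∈ S.image (Nat.nth Nat.Prime), p = ∏ k ∈ S, Nat.nth Nat.Prime k := by
      apply Finset.prod_image
      intro x _ y _ hxy
      by_contra hne
      rcases lt_or_gt_of_ne hne with h | h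
      · exact (mono h).ne hxy
      · exact (mono h).ne' hxy
    rw [← himg]
    apply Finset.prod_primes_dvd
    · intro p hp
      obtain ⟨k, _, rfl⟩ := Finset.mem_image.1 hp
      exact (pr k).prime
    · intro p hp
      obtain ⟨k, hk, rfl⟩ := Finset.mem_image.1 hp
      exact (Finset.mem_filter.1 hk).2
  have hle := Nat.le_of_dvd (by positivity) hprod
  have h1 : (B + 1) ^ S.card ≤ ∏ k ∈ S, Nat.nth Nat.Prime k := by
    apply Finset.pow_card_le_prod
    intro k hk
    have hk' := Finset.mem_Icc.1 (Finset.mem_filter.1 hk).1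
    exact mono (show n - 1 < k by omega)
  have h2 : ∏ l ∈ Ico i j, Nat.nth Nat.Prime l ≤ B ^ (j - i) := by
    have : ∏ l ∈ Ico i j, Nat.nth Nat.Prime l ≤ ∏ _l ∈ Ico i j, B := by
      apply Finset.prod_le_prod'
      intro l hl
      have hl' := (Finset.mem_Ico.1 hl).2
      exact (Nat.nth_monotone Nat.infinite_setOfPred_prime) (show l ≤ n - 1 by omega)
    simpa using this
  have hB2 : 2 ≤ B := (pr (n - 1)).two_le
  have h3 : (B + 1) ^ (j - i + 1) ≤ (B + 1) ^ S.card :=
    Nat.pow_le_pow_right (by omega) (by omega)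
  have h4 : B ^ (j - i) ≤ (B + 1) ^ (j - i) := Nat.pow_le_pow_left (by omega) _
  have h5 : 1 ≤ (B + 1) ^ (j - i) := Nat.one_le_pow _ _ (by omega)
  rw [pow_succ] at h3
  nlinarith

theorem sum_pairs (n : ℕ) : ∑ j ∈ range (n + 1), ∑ i ∈ (range j).filter (fun i => 1 ≤ i), (j - i) ≤
    (n + 1).choose 3 := by
  induction n with
  | zero => simp
  | succ n ih =>
    rw [Finset.sum_range_succ]
    have h : ∑ i ∈ (range (n + 1)).filter (fun i => 1 ≤ i), (n + 1 - i) ≤ (n + 1).choose 2 := by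
      have h1 : ∀ m : ℕ, ∑ i ∈ (range (m + 1)).filter (fun i => 1 ≤ i), (m + 1 - i) ≤ (m + 1).choose 2 := by
        intro m
        induction m with
        | zero => simp [Finset.sum_filter]
        | succ m ihm =>
          rw [Finset.sum_filter, Finset.sum_range_succ' , ] at ihm ⊢
          simp only [Nat.le_add_left, if_true, Nat.reduceSubDiff, Nat.not_succ_le_zero, if_false, add_zero,
            Nat.reduceLeDiff] at ihm ⊢
          rw [Finset.sum_range_succ', Nat.choose_succ_succ' (m + 1) 1]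
          simp at ihm ⊢
          omega
      exact h1 n
    have h2 : (n + 1 + 1).choose 3 = (n + 1).choose 2 + (n + 1).choose 3 := rfl
    omega

theorem upper (n : ℕ) : a n ≤ Nat.nth Nat.Prime (n + (n + 1).choose 3) := by
  classical
  by_contra hcon
  push Not at hcon
  set C := (n + 1).choose 3 with hC
  have hbad : ∀ k ∈ Icc n (n + C), ∃ p : ℕ × ℕ, 1 ≤ p.1 ∧ p.1 < p.2 ∧ p.2 ≤ n ∧
      Nat.nth Nat.Prime k ∣ 1 + ∏ l ∈ Ico p.1 p.2, Nat.nth Nat.Prime l := by
    intro k hk
    have hk' := Finset.mem_Icc.1 hk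
    by_contra hno
    push Not at hno
    have hmem : Nat.nth Nat.Prime k ∈
        {m : ℕ | 1 < m ∧ ∀ i j, 1 ≤ i → i < j → j ≤ n → ¬ m ∣ P i + P j} := by
      refine ⟨(pr k).one_lt, fun i j hi hij hj hd => ?_⟩
      exact hno (i, j) hi hij hj (dvd_N hij hj hk'.1 hd)
    have h1 : a n ≤ Nat.nth Nat.Prime k := Nat.sInf_le hmem
    have h2 : Nat.nth Nat.Prime k ≤ Nat.nth Nat.Prime (n + C) :=
      (Nat.nth_monotone Nat.infinite_setOfPred_prime) hk'.2
    omega
  have hsub : Icc n (n + C) ⊆ (range (n + 1)).biUnion (fun j =>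
      ((range j).filter (fun i => 1 ≤ i)).biUnion (fun i =>
        (Icc n (n + C)).filter (fun k => Nat.nth Nat.Prime k ∣
          1 + ∏ l ∈ Ico i j, Nat.nth Nat.Prime l))) := by
    intro k hk
    obtain ⟨⟨i, j⟩, h1, h2, h3, h4⟩ := hbad k hk
    refine Finset.mem_biUnion.2 ⟨j, Finset.mem_range.2 (Nat.lt_succ_of_le h3),
      Finset.mem_biUnion.2 ⟨i, Finset.mem_filter.2 ⟨Finset.mem_range.2 h2, h1⟩,
        Finset.mem_filter.2 ⟨hk, h4⟩⟩⟩
  have h1 := Finset.card_le_card hsub
  have h2 : ((range (n + 1)).biUnion (fun j =>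
      ((range j).filter (fun i => 1 ≤ i)).biUnion (fun i =>
        (Icc n (n + C)).filter (fun k => Nat.nth Nat.Prime k ∣
          1 + ∏ l ∈ Ico i j, Nat.nth Nat.Prime l)))).card ≤
      ∑ j ∈ range (n + 1), ∑ i ∈ (range j).filter (fun i => 1 ≤ i), (j - i) := by
    refine Finset.card_biUnion_le.trans (Finset.sum_le_sum (fun j hj => ?_))
    refine Finset.card_biUnion_le.trans (Finset.sum_le_sum (fun i hi => ?_))
    exact count (Finset.mem_range.1 (Finset.mem_filter.1 hi).1) (by have := Finset.mem_range.1 hj; omega)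
  have h3 := sum_pairs n
  rw [Nat.card_Icc] at h1
  omega

/-- `a n` is at most the prime number `n + (n+1 choose 3) + 1`, so `a n = O(n^3 log n)` -/
theorem result : ∀ n : ℕ, a n ≤ Nat.nth Nat.Prime (n + (n + 1).choose 3) := upper

end Pool.Agent.Results.MP_e08634_nt.CubicBound
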